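import Pool.Agent.H7FA.Defs

/-!
Weighted havens in graphs without an induced minor isomorphic to a cone over a forest: definitions.
The only change compared with `Pool.Agent.H7FA.Defs` is that the model of the tree comes with a
further branch set which touches all the other ones.
-/

namespace Pool.Agent.H83FC

open SimpleGraph Pool.Agent.H70IM Pool.Agent.H7FA

universe u

variable {V : Type u}

/-- the cone over the tree on `L` nodes is an induced minor -/
def CGoal (G : SimpleGraph V) (par : ℕ → ℕ) (L : ℕ) : Prop :=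
  ∃ (P : ℕ → Set V) (Z : Set V), TreeModel G par L P ∧ Conn G Z ∧
    (∀ i < L, Disjoint (P i) Z) ∧ ∀ i < L, ∃ a ∈ P i, ∃ z ∈ Z, G.Adj a z

/-- the promise: letters `x j` of distinct colours and pairwise not in conflict which together
with sets `D j` inside the arena form a model of the first `q` nodes give the whole cone -/
def CProm (G : SimpleGraph V) (par : ℕ → ℕ) (L q : ℕ) (A : Set V) (I : Finset ℕ)
    (F : ℕ → Set V) (out : V → Set V) : Prop :=
  ∀ (c : ℕ → ℕ) (x : ℕ → V) (D : ℕ → Set V),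
    (∀ j < q, c j ∈ I ∧ x j ∈ F (c j) ∧ D j ⊆ A) →
    (∀ i < q, ∀ j < q, i ≠ j → c i ≠ c j ∧ x j ∉ out (x i)) →
    TreeModel G par q (fun j => insert (x j) (D j)) → CGoal G par L

/-- `CSubClaim par L j`: from a model of the first `j` nodes and a supply of letters one gets the
goal or an event. -/
def CSubClaim (par : ℕ → ℕ) (L j : ℕ) : Prop :=
  ∃ (n : ℕ) (b : ℝ), 0 ≤ b ∧ ∀ (V : Type u) [Fintype V] (G : SimpleGraph V) (w : V → ℝ) (K : ℝ)
    (β : Set V → Set V) (P : ℕ → Set V) (A : Set V) (Q : Set V → Prop),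
    WHaven G w K β → Arena G w K β A → wt w (bd G A) + b ≤ K → TreeModel G par j P →
    (∀ i < j, Anti G (P i) A) → (∀ v, ¬ Q {v}) → Supply G w K β P j j A Q n b →
    CGoal G par L ∨ Event G w K β A Q b

/-- `CLoopClaim par L j q`: from a model of the first `j + 1` nodes and many heavy families of
letters at the node `j` for which the promise `CProm q` holds, one gets the goal or an event. -/
def CLoopClaim (par : ℕ → ℕ) (L j q : ℕ) : Prop :=
  ∃ (N n : ℕ) (b : ℝ), 1 ≤ N ∧ 0 ≤ b ∧ ∀ k : ℝ, 1 ≤ k → ∃ R : ℝ, 0 < R ∧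
    ∀ (V : Type u) [Fintype V] (G : SimpleGraph V) (w : V → ℝ) (K : ℝ)
    (β : Set V → Set V) (P : ℕ → Set V) (A : Set V) (Q : Set V → Prop) (I : Finset ℕ)
    (F : ℕ → Set V) (out : V → Set V),
    WHaven G w K β → Arena G w K β A → wt w (bd G A) + b ≤ K → TreeModel G par (j + 1) P →
    (∀ i < j + 1, Anti G (P i) A) → (∀ v, ¬ Q {v}) → Supply G w K β P (j + 1) j A Q n b →
    N ≤ I.card → (∀ i ∈ I, R ≤ wt w (F i)) →
    (∀ i ∈ I, ∀ x ∈ F i, x ∉ A ∧ Letter G P (j + 1) j x) →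
    (∀ i ∈ I, ∀ i' ∈ I, i ≠ i' → Disjoint (F i) (F i')) →
    (∀ i ∈ I, ∀ i' ∈ I, i ≠ i' → ∀ x ∈ F i, ∀ y ∈ F i', G.Adj x y → y ∈ out x) →
    (∀ i ∈ I, ∀ i' ∈ I, i ≠ i' → ∀ x ∈ F i, wt w (out x ∩ F i') ≤ k) →
    (∀ i ∈ I, ∀ A'', Arena G w K β A'' → A'' ⊆ A →
      wt w (F i \ bd G A'') ≤ k + wt w (bd G A'' ∩ A)) →
    CProm G par L q A I F out →
    CGoal G par L ∨ Event G w K β A Q b

end Pool.Agent.H83FC
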