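import Pool.Agent.H7FA.PromStep
import Pool.Agent.H83FC.Defs
import Pool.Agent.H70IM.Apex

/-!
The promise for cones.
-/

namespace Pool.Agent.H83FC

open SimpleGraph Pool.Agent.H70IM Pool.Agent.H7FA

universe u

variable {V : Type u} {G : SimpleGraph V} {par : ℕ → ℕ}

/-- the promise for `q = L`: the set `Z` touched by all letters is the apex of the cone -/
theorem cprom_top {L : ℕ} {A : Set V} {I : Finset ℕ} {F : ℕ → Set V} {out : V → Set V}
    {Z : Set V} (hZ : Conn G Z) (hZA : Anti G Z A)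
    (hF : ∀ i ∈ I, ∀ x ∈ F i, x ∉ Z ∧ ∃ z ∈ Z, G.Adj z x) :
    CProm G par L L A I F out := by
  intro c x D hcx _ hmod
  refine ⟨_, Z, hmod, hZ, ?_, ?_⟩
  · intro i hi
    rw [Set.disjoint_left]
    rintro v (rfl | hv) hvZ
    · exact (hF _ (hcx i hi).1 _ (hcx i hi).2.1).1 hvZ
    · exact (hZA v hvZ v ((hcx i hi).2.2 hv)).1 rfl
  · intro i hi
    obtain ⟨-, z, hz, hzx⟩ := hF _ (hcx i hi).1 _ (hcx i hi).2.1
    exact ⟨x i, Or.inl rfl, z, hz, hzx.symm⟩

/-- the promise for `q = 1` gives the goal -/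
theorem cprom_one {L : ℕ} {A : Set V} {I : Finset ℕ} {F : ℕ → Set V} {out : V → Set V}
    (h : CProm G par L 1 A I F out) {i : ℕ} (hi : i ∈ I) {x : V} (hx : x ∈ F i) :
    CGoal G par L := by
  refine h (fun _ => i) (fun _ => x) (fun _ => ∅) (fun j _ => ⟨hi, hx, Set.empty_subset _⟩)
    (fun a ha b hb hab => absurd (by omega : a = b) hab) (TreeModel.one ?_)
  simpa using Conn.singleton G x

/-- One round turns the promise for `q + 1` into the promise for `q`. -/
theorem cprom_step (hpar : ∀ j, 1 ≤ j → par j < j) {L q : ℕ} (hq : 1 ≤ q) {A A' R : Set V}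
    (hRA : R ⊆ A) (hA'A : A' ⊆ A) (hA'R : Disjoint A' (cl G R)) {I I' : Finset ℕ}
    {F F' : ℕ → Set V} {out : V → Set V} (J : V → Set V) (y : V → V)
    (hI : I' ⊆ I) (hF : ∀ i ∈ I', F' i ⊆ F i) (hFA : ∀ i ∈ I, ∀ x ∈ F i, x ∉ A)
    (hdisj : ∀ i ∈ I, ∀ j ∈ I, i ≠ j → Disjoint (F i) (F j))
    (hadj : ∀ i ∈ I, ∀ j ∈ I, i ≠ j → ∀ x ∈ F i, ∀ z ∈ F j, G.Adj x z → z ∈ out x)
    (hJ : ∀ i ∈ I', ∀ x ∈ F' i, Conn G (J x) ∧ J x ⊆ R ∧ x ∈ cl G (J x) ∧ y x ∈ cl G (J x))
    (hy : ∀ i ∈ I', ∀ x ∈ F' i, ∃ c ∈ I, c ∉ I' ∧ y x ∈ F c)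
    (hyn : ∀ i ∈ I', ∀ x ∈ F' i, ∀ j ∈ I', ∀ z ∈ F' j, y x ∉ out z ∧ z ∉ out (y x))
    (hA'y : ∀ i ∈ I', ∀ x ∈ F' i, Disjoint A' (cl G {y x}))
    (h : CProm G par L (q + 1) A I F out) :
    CProm G par L q A' I' F' (fun x => out x ∪ cl G (J x)) := by
  intro c x D hcx hne hmod
  -- the parent of the new node
  have hpq : par q < q := hpar q hq
  obtain ⟨hcp, hxp, hDp⟩ := hcx (par q) hpq
  obtain ⟨hJc, hJR, hxJ, hyJ⟩ := hJ _ hcp _ hxp
  obtain ⟨d, hdI, hdI', hyd⟩ := hy _ hcp _ hxp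
  set X := x (par q) with hX
  have hxA : ∀ j < q, x j ∉ A := fun j hj =>
    hFA _ (hI (hcx j hj).1) _ (hF _ (hcx j hj).1 (hcx j hj).2.1)
  have hyA : y X ∉ A := hFA d hdI _ hyd
  have hJA : J X ⊆ A := hJR.trans hRA
  have hcd : ∀ j < q, c j ≠ d := fun j hj he => hdI' (he ▸ (hcx j hj).1)
  have hyx : ∀ j < q, y X ≠ x j := by
    intro j hj he
    have h1 := hdisj (c j) (hI (hcx j hj).1) d hdI (hcd j hj)
    exact Set.disjoint_left.1 h1 (hF _ (hcx j hj).1 (hcx j hj).2.1) (he ▸ hyd)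
  have hout : ∀ j < q, y X ∉ out (x j) ∧ x j ∉ out (y X) := fun j hj =>
    hyn _ hcp _ hxp _ (hcx j hj).1 _ (hcx j hj).2.1
  have hyadj : ∀ j < q, ¬ G.Adj (x j) (y X) := by
    intro j hj hadj'
    exact (hout j hj).1 (hadj (c j) (hI (hcx j hj).1) d hdI (hcd j hj) _
      (hF _ (hcx j hj).1 (hcx j hj).2.1) _ hyd hadj')
  have hDA : ∀ j < q, D j ⊆ A' := fun j hj => (hcx j hj).2.2
  have hDcl : ∀ j < q, ∀ v ∈ D j, v ∉ cl G R := fun j hj v hv =>
    Set.disjoint_left.1 hA'R (hDA j hj hv)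
  have hDy : ∀ j < q, ∀ v ∈ D j, v ∉ cl G {y X} := fun j hj v hv =>
    Set.disjoint_left.1 (hA'y _ hcp _ hxp) (hDA j hj hv)
  -- the new branch set
  have hBconn : Conn G (insert (y X) (J X)) := by
    rcases hyJ with hyJ | ⟨s, hs, hsy⟩
    · rwa [Set.insert_eq_of_mem hyJ]
    · rw [Set.insert_eq]
      exact (Conn.singleton G (y X)).union hJc ⟨y X, rfl, s, hs, Or.inr hsy.symm⟩
  have hdisjB : ∀ i < q, Disjoint (insert (x i) (D i)) (insert (y X) (J X)) := by
    intro i hi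
    rw [Set.disjoint_left]
    rintro v (rfl | hv) (hv' | hv')
    · exact hyx i hi hv'.symm
    · exact hxA i hi (hJA hv')
    · exact hyA (hv' ▸ hA'A (hDA i hi hv))
    · exact hDcl i hi v hv (Or.inl (hJR hv'))
  have hantiB : ∀ i < q, i ≠ par q → ∀ a ∈ insert (x i) (D i), ∀ b ∈ insert (y X) (J X),
      ¬ G.Adj a b := by
    rintro i hi hip a (rfl | ha) b (rfl | hb) hab
    · exact hyadj i hi hab
    · exact (hne (par q) hpq i hi (fun he => hip he.symm)).2 (Or.inr (Or.inr ⟨b, hb, hab.symm⟩))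
    · exact hDy i hi a ha (Or.inr ⟨y X, rfl, hab.symm⟩)
    · exact hDcl i hi a ha (Or.inr ⟨b, hJR hb, hab.symm⟩)
  have htouchB : ∃ a ∈ insert (x (par q)) (D (par q)), ∃ b ∈ insert (y X) (J X),
      G.Adj a b := by
    rcases hxJ with hxJ | ⟨s, hs, hsx⟩
    · exact absurd (hJA hxJ) (hxA _ hpq)
    · exact ⟨X, Or.inl rfl, s, Or.inr hs, hsx.symm⟩
  have hmod' := hmod.extend hpar hq hBconn hdisjB htouchB hantiB
  -- apply the promise
  have hne' : ∀ i, i < q → i ≠ q := fun i hi => by omega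
  refine h (Function.update c q d) (Function.update x q (y X)) (Function.update D q (J X))
    ?_ ?_ ?_
  · intro j hj
    rcases Nat.lt_succ_iff_lt_or_eq.1 hj with hj | rfl
    · rw [Function.update_of_ne (hne' j hj), Function.update_of_ne (hne' j hj),
        Function.update_of_ne (hne' j hj)]
      exact ⟨hI (hcx j hj).1, hF _ (hcx j hj).1 (hcx j hj).2.1, (hDA j hj).trans hA'A⟩
    · rw [Function.update_self, Function.update_self, Function.update_self]
      exact ⟨hdI, hyd, hJA⟩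
  · intro i hi j hj hij
    rcases Nat.lt_succ_iff_lt_or_eq.1 hi with hi | rfl
    · rcases Nat.lt_succ_iff_lt_or_eq.1 hj with hj | rfl
      · rw [Function.update_of_ne (hne' i hi), Function.update_of_ne (hne' j hj),
          Function.update_of_ne (hne' i hi), Function.update_of_ne (hne' j hj)]
        exact ⟨(hne i hi j hj hij).1, fun hmem => (hne i hi j hj hij).2 (Or.inl hmem)⟩
      · rw [Function.update_of_ne (hne' i hi), Function.update_self,
          Function.update_of_ne (hne' i hi), Function.update_self]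
        exact ⟨hcd i hi, (hout i hi).1⟩
    · rcases Nat.lt_succ_iff_lt_or_eq.1 hj with hj | rfl
      · rw [Function.update_self, Function.update_of_ne (hne' j hj),
          Function.update_self, Function.update_of_ne (hne' j hj)]
        exact ⟨(hcd j hj).symm, (hout j hj).2⟩
      · exact absurd rfl hij
  · convert hmod' using 1
    funext j
    by_cases hjq : j = q
    · subst hjq
      rw [Function.update_self, Function.update_self, Function.update_self]
    · rw [Function.update_of_ne hjq, Function.update_of_ne hjq, Function.update_of_ne hjq]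

end Pool.Agent.H83FC
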