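import Pool.Agent.H7FA.SubStep
import Pool.Agent.H83FC.PromStep

/-!
From the loop at level `j` to the claim for a model of `j` nodes; the start (cones).
-/

namespace Pool.Agent.H83FC

open SimpleGraph Pool.Agent.H70IM Pool.Agent.H7FA

universe u

/-- a model of the whole tree and a supply of letters: the arena together with one letter of
every node is the apex of the cone -/
theorem csub_top (par : ℕ → ℕ) (L : ℕ) : CSubClaim.{u} par L L := by
  refine ⟨0, 0, le_rfl, ?_⟩
  intro V _ G w K β P A Q hH hA hK hP hanti hQ hSup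
  left
  have hx : ∀ p < L, ∃ x : V, x ∈ bd G A ∧ Letter G P L p x := by
    intro p hp
    obtain ⟨x, h1, -, h3, -⟩ := hSup [] (by simp) (by simp) A (Below.refl hH hA) p hp
    exact ⟨x, h1, h3⟩
  have hx' : ∀ p : ℕ, ∃ x : V, p < L → x ∈ bd G A ∧ Letter G P L p x := by
    intro p
    by_cases hp : p < L
    · obtain ⟨x, h⟩ := hx p hp
      exact ⟨x, fun _ => h⟩
    · obtain ⟨x, -⟩ := (hA.conn hH).1
      exact ⟨x, fun h => absurd h hp⟩
  choose x hxx using hx'
  refine ⟨P, A ∪ {v | ∃ p < L, x p = v}, hP, ?_, ?_, ?_⟩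
  · refine (hA.conn hH).union_nbrs ?_
    rintro z ⟨p, hp, rfl⟩
    obtain ⟨s, hs, hsx⟩ := (hxx p hp).1.2
    exact ⟨s, hs, hsx.symm⟩
  · intro i hi
    rw [Set.disjoint_left]
    rintro v hv (hvA | ⟨p, hp, rfl⟩)
    · exact (hanti i hi v hv v hvA).1 rfl
    · exact (hxx p hp).2.notMem i hi hv
  · intro i hi
    obtain ⟨a, ha, hax⟩ := (hxx i hi).2.touch
    exact ⟨a, ha, x i, Or.inr ⟨i, hi, rfl⟩, hax⟩

theorem csub_of_loop (par : ℕ → ℕ) (hpar : ∀ j, 1 ≤ j → par j < j) (L j : ℕ) (hj : 1 ≤ j)
    (hL : CLoopClaim.{u} par L j L) : CSubClaim.{u} par L j := by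
  obtain ⟨N, n, b, hN, hb, hk⟩ := hL
  obtain ⟨R, hR, h⟩ := hk 1 le_rfl
  set m : ℝ := N * (R + 1) + 1 with hm
  have hN' : (1 : ℝ) ≤ N := by exact_mod_cast hN
  have hm1 : 1 ≤ m := by
    have : 0 ≤ N * (R + 1) := by positivity
    linarith
  refine ⟨n + 2, m + 1 + b, by linarith, ?_⟩
  intro V _ G w K β P A Q hH hA hK hP hanti hQ hSup
  obtain ⟨x, hx, hxA, hxL, -⟩ := hSup [] (by simp) (by simp) A
    ((Below.refl hH hA).mono (by linarith)) (par j) (hpar j hj)
  obtain ⟨C, A', hC, hCA, hxC, hbel, hdC, hdx, hcase⟩ :=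
    hH.node hA hx hm1 (by linarith) Q hQ
  rcases hcase with hQC | ⟨hQC, S, hSC, hSA, hSw, hSr⟩
  · exact Or.inr ⟨C, A', hC, hCA, hQC, hbel.mono (by linarith), hdC⟩
  · obtain ⟨F, hF1, hF2⟩ := exists_split hH.nonneg (fun v => hH.toWts.single v) hR.le N S
      (by rw [hm] at hSw; linarith)
    set B : Set V := insert x C with hB
    have hBconn : Conn G B := by
      have e : B = {x} ∪ C := Set.insert_eq x C
      rw [e]
      obtain ⟨c, hc, hxc⟩ := hxC
      exact (Conn.singleton G x).union hC ⟨x, rfl, c, hc, Or.inr hxc⟩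
    have hP' : TreeModel G par (j + 1) (Function.update P j B) := by
      refine hP.extend hpar hj hBconn ?_ ?_ ?_
      · intro i hi
        rw [Set.disjoint_left]
        rintro v hv (rfl | hvC)
        · exact hxL.notMem i hi hv
        · exact (hanti i hi v hv v (hCA hvC)).1 rfl
      · obtain ⟨a, ha, hax⟩ := hxL.touch
        exact ⟨a, ha, x, Or.inl rfl, hax⟩
      · rintro i hi hip a ha v (rfl | hvC)
        · exact hxL.anti i hi hip a ha
        · exact (hanti i hi a ha v (hCA hvC)).2
    have hne : ∀ i, i < j → Function.update P j B i = P i := fun i hi =>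
      Function.update_of_ne (by omega) _ _
    have hself : Function.update P j B j = B := Function.update_self _ _ _
    have hBA' : Anti G B A' := by
      rintro a (rfl | ha)
      · exact anti_of_disjoint_cl hdx _ rfl
      · exact anti_of_disjoint_cl hdC a ha
    have hprom : CProm G par L L A' (Finset.range N) F (fun x => cl G {x}) := by
      refine cprom_top hBconn hBA' ?_
      intro i hi v hv
      have hvS : v ∈ S := (hF1 i (Finset.mem_range.mp hi)).1 hv
      have hvC := hSC hvS
      have hvA := hSA hvS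
      obtain ⟨c, hc, hcv⟩ := hvC.2
      refine ⟨?_, c, Or.inr hc, hcv⟩
      rintro (rfl | h')
      · exact hxA hvA
      · exact hvC.1 h'
    have key := h V G w K β (Function.update P j B) A' Q (Finset.range N) F
      (fun x => cl G {x}) hH hbel.arena (by have := hbel.bd_le hH; linarith) hP' ?_ hQ ?_
      (by simp) ?_ ?_ (fun i _ i' _ hii' => hF2 i i' hii') ?_ ?_ ?_ hprom
    · rcases key with hG | hE
      · exact Or.inl hG
      · exact Or.inr (hE.up hH hbel le_rfl)
    · intro i hi
      rcases Nat.lt_or_ge i j with hij | hij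
      · rw [hne i hij]
        exact (hanti i hij).mono subset_rfl hbel.sub
      · have : i = j := by omega
        subst this
        rw [hself]
        exact hBA'
    · intro T hT hTQ A'' hA'' p hp
      obtain ⟨x', hx', hx'A, hx'L, hx'T⟩ := hSup ({x} :: C :: T)
        (by simp only [List.length_cons]; omega) (by
          intro t ht
          simp only [List.mem_cons] at ht
          rcases ht with rfl | rfl | ht
          · exact hQ x
          · exact hQC
          · exact hTQ t ht) A'' (hbel.trans hH hA'') p hp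
      have hx'x := hx'T {x} (by simp)
      have hx'C := hx'T C (by simp)
      refine ⟨x', hx', fun h' => hx'A (hbel.sub h'), ⟨?_, ?_, ?_⟩, fun t ht =>
        hx'T t (by simp [ht])⟩
      · rw [hne p hp]
        exact hx'L.touch
      · intro i hi
        rcases Nat.lt_or_ge i j with hij | hij
        · rw [hne i hij]
          exact hx'L.notMem i hij
        · have : i = j := by omega
          subst this
          rw [hself]
          rintro (h' | h')
          · exact hx'x (Or.inl h')
          · exact hx'C (Or.inl h')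
      · intro i hi hip a ha
        rcases Nat.lt_or_ge i j with hij | hij
        · rw [hne i hij] at ha
          exact hx'L.anti i hij hip a ha
        · have : i = j := by omega
          subst this
          rw [hself] at ha
          intro hadj
          rcases ha with rfl | ha
          · exact hx'x (Or.inr ⟨_, rfl, hadj⟩)
          · exact hx'C (Or.inr ⟨a, ha, hadj⟩)
    · intro i hi
      exact (hF1 i (Finset.mem_range.mp hi)).2
    · intro i hi v hv
      have hvS : v ∈ S := (hF1 i (Finset.mem_range.mp hi)).1 hv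
      have hvC := hSC hvS
      have hvA := hSA hvS
      refine ⟨fun hvA' => ?_, ⟨?_, ?_, ?_⟩⟩
      · rw [Set.disjoint_left] at hdC
        exact hdC hvA' (Or.inr hvC.2)
      · rw [hself]
        obtain ⟨c, hc, hcv⟩ := hvC.2
        exact ⟨c, Or.inr hc, hcv⟩
      · intro i' hi'
        rcases Nat.lt_or_ge i' j with hij | hij
        · rw [hne i' hij]
          intro h'
          exact (hanti i' hij v h' v hvA).1 rfl
        · have : i' = j := by omega
          subst this
          rw [hself]
          rintro (rfl | h')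
          · exact hxA hvA
          · exact hvC.1 h'
      · intro i' hi' hij a ha
        have hij' : i' < j := by omega
        rw [hne i' hij'] at ha
        exact (hanti i' hij' a ha v hvA).2
    · intro i _ i' _ _ v _ y _ hvy
      exact Or.inr ⟨v, rfl, hvy⟩
    · intro i _ i' _ _ v _
      exact (wt_mono hH.nonneg Set.inter_subset_left).trans (hH.deg v)
    · intro i hi A'' hA'' hsub
      have h1 := hSr A'' hA'' hsub
      have h2 : wt w (F i \ bd G A'') ≤ wt w (S \ bd G A'') :=
        wt_mono hH.nonneg (Set.sdiff_subset_sdiff_left (hF1 i (Finset.mem_range.mp hi)).1)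
      linarith

/-- the start: from the loop at level `0` to the theorem -/
theorem cgoal_of_loop_zero (par : ℕ → ℕ) (L : ℕ) (hL : CLoopClaim.{u} par L 0 L) :
    ∃ K : ℝ, 0 ≤ K ∧ ∀ (V : Type u) [Fintype V] (G : SimpleGraph V) (w : V → ℝ)
      (β : Set V → Set V), WHaven G w K β → CGoal G par L := by
  obtain ⟨N, n, b, hN, hb, hk⟩ := hL
  obtain ⟨R, hR, h⟩ := hk 1 le_rfl
  set m : ℝ := N * (R + 1) + 1 with hm
  have hm1 : 1 ≤ m := by
    have : 0 ≤ N * (R + 1) := by positivity
    linarith
  refine ⟨1 + m + b, by linarith, ?_⟩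
  intro V _ G w β hH
  have h0 : wt w (∅ : Set V) ≤ 1 + m + b := by rw [wt_empty]; linarith
  have hA₀ := (hH.arena_of h0).1
  obtain ⟨p₀, hp₀⟩ := (hA₀.conn hH).1
  have h1 : wt w {p₀} ≤ 1 + m + b := (hH.toWts.single p₀).trans (by linarith)
  obtain ⟨hA, hbd⟩ := hH.arena_of h1
  have hp₀A : p₀ ∉ β {p₀} := fun h' => hH.avoid _ h1 p₀ h' rfl
  have hx : p₀ ∈ bd G (β {p₀}) := by
    obtain ⟨z, -, hz⟩ := Arena.exists_bd hH hA₀ hA (hH.mono _ _ (Set.empty_subset _) h1)
      ⟨p₀, hp₀, hp₀A⟩
    have : z = p₀ := hbd hz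
    rwa [this] at hz
  have hbdw : wt w (bd G (β {p₀})) ≤ 1 := (wt_mono hH.nonneg hbd).trans (hH.toWts.single p₀)
  obtain ⟨C, A', hpC, hC, hCA, hbel, hdC, hcase⟩ :=
    hH.grow hA hx hm1 (by linarith) (fun _ => False) (fun h => h)
  rcases hcase with hQC | ⟨-, S, hSC, hSA, hSw, hSr⟩
  · exact absurd hQC (fun h => h)
  obtain ⟨F, hF1, hF2⟩ := exists_split hH.nonneg (fun v => hH.toWts.single v) hR.le N S
    (by rw [hm] at hSw; linarith)
  have key := h V G w (1 + m + b) β (fun _ => C) A' (fun _ => False) (Finset.range N) F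
    (fun x => cl G {x}) hH hbel.arena (by have := hbel.bd_le hH; linarith)
    (TreeModel.one hC) (fun _ _ => anti_of_disjoint_cl hdC) (fun _ h => h)
    (fun _ _ _ _ _ p hp => absurd hp (Nat.not_lt_zero p)) (by simp)
    (fun i hi => (hF1 i (Finset.mem_range.mp hi)).2) ?_
    (fun i _ i' _ hii' => hF2 i i' hii') ?_ ?_ ?_
    (cprom_top hC (anti_of_disjoint_cl hdC) fun i hi v hv =>
      hSC ((hF1 i (Finset.mem_range.mp hi)).1 hv))
  · rcases key with hG | ⟨_, _, _, _, hE, _⟩
    · exact hG
    · exact absurd hE (fun h => h)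
  · intro i hi v hv
    have hvS : v ∈ S := (hF1 i (Finset.mem_range.mp hi)).1 hv
    have hvC := hSC hvS
    refine ⟨fun hvA' => ?_, ⟨hvC.2, fun _ _ => hvC.1, ?_⟩⟩
    · rw [Set.disjoint_left] at hdC
      exact hdC hvA' (Or.inr hvC.2)
    · intro i' hi' hij
      omega
  · intro i _ i' _ _ v _ y _ hvy
    exact Or.inr ⟨v, rfl, hvy⟩
  · intro i _ i' _ _ v _
    exact (wt_mono hH.nonneg Set.inter_subset_left).trans (hH.deg v)
  · intro i hi A'' hA'' hsub
    have h1 := hSr A'' hA'' hsub
    have h2 : wt w (F i \ bd G A'') ≤ wt w (S \ bd G A'') :=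
      wt_mono hH.nonneg (Set.sdiff_subset_sdiff_left (hF1 i (Finset.mem_range.mp hi)).1)
    linarith

end Pool.Agent.H83FC
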