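import Pool.Agent.H7FA.Loop
import Pool.Agent.H83FC.SubStep

/-!
The loop at a fixed level (cones).
-/

namespace Pool.Agent.H83FC

open SimpleGraph Pool.Agent.H70IM Pool.Agent.H7FA

universe u

theorem cloop_one (par : ℕ → ℕ) (L j : ℕ) : CLoopClaim.{u} par L j 1 := by
  refine ⟨1, 0, 0, le_rfl, le_rfl, fun k _ => ⟨1, one_pos, ?_⟩⟩
  intro V _ G w K β P A Q I F out hH hA hK hP hanti hQ hSup hN hR hlet hdisj hadj hconf hrob hprom
  obtain ⟨i, hi⟩ := Finset.card_pos.mp (show 0 < I.card by omega)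
  obtain ⟨x, hx⟩ := exists_mem_of_wt_pos (w := w) (S := F i) (by linarith [hR i hi])
  exact Or.inl (cprom_one hprom hi hx)

theorem cloop_succ (par : ℕ → ℕ) (hpar : ∀ j, 1 ≤ j → par j < j) (L j q : ℕ) (hq : 1 ≤ q)
    (hS : CSubClaim.{u} par L (j + 1)) (hL : CLoopClaim.{u} par L j q) :
    CLoopClaim.{u} par L j (q + 1) := by
  classical
  obtain ⟨ns, bs, hbs, hS⟩ := hS
  obtain ⟨Nq, nq, bq, hNq, hbq, hk⟩ := hL
  obtain ⟨N', hN', hround⟩ := round_lemma.{u} Nq hNq
  choose Rf hRf using hk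
  let ρ : ℝ → ℝ := fun k' => if h : 1 ≤ k' + bs + Nq then Rf (k' + bs + Nq) h else 0
  refine ⟨ns * N' + 1, max ns nq, bs + Nq + bq, by omega, by positivity, ?_⟩
  intro k hk1
  obtain ⟨q₁, k₂, hq₁, hk₂, hr⟩ := hround k hk1 ρ
  have hR0 : (0 : ℝ) < ns * q₁ + k + bs + 1 := by
    have : 0 ≤ (ns : ℝ) * q₁ := by positivity
    linarith
  refine ⟨ns * q₁ + k + bs + 1, hR0, ?_⟩
  intro V _ G w K β P A Q I F out hH hA hK hP hanti hQ hSup hN hR hlet hdisj hadj hconf hrob hprom
  set Q' : Set V → Prop := fun C => Q C ∨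
    N' ≤ (I.filter (fun i => q₁ ≤ wt w (cl G C ∩ F i))).card with hQ'
  have hbsle : bs ≤ bs + Nq + bq := by
    have : (0 : ℝ) ≤ Nq := by positivity
    linarith
  have hQ's : ∀ v, ¬ Q' {v} := by
    rintro v (h | h)
    · exact hQ v h
    · have : I.filter (fun i => q₁ ≤ wt w (cl G {v} ∩ F i)) = ∅ := by
        rw [Finset.filter_eq_empty_iff]
        intro i _ hi
        have := (wt_mono hH.nonneg (Set.inter_subset_left (s := cl G {v}) (t := F i))).trans
          (hH.deg v)
        linarith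
      rw [this] at h
      simp at h
      omega
  have hSup' : Supply G w K β P (j + 1) (j + 1) A Q' ns bs := by
    intro T hT hTQ A' hA' p hp
    rcases Nat.lt_or_ge p j with hpj | hpj
    · exact hSup T (hT.trans (le_max_left _ _)) (fun t ht h => hTQ t ht (Or.inl h)) A'
        (hA'.mono hbsle) p hpj
    · have : p = j := by omega
      subst this
      -- a colour which is not spoiled
      have h1 := card_filter_exists_le I (fun (t : Set V) i => q₁ ≤ wt w (cl G t ∩ F i)) N' T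
        (fun t ht => by
          have := hTQ t ht
          simp only [hQ', not_or, not_le] at this
          exact this.2.le)
      have h2 : ∃ i ∈ I, ¬ ∃ t ∈ T, q₁ ≤ wt w (cl G t ∩ F i) := by
        by_contra hcon
        push Not at hcon
        have h3 : I.filter (fun i => ∃ t ∈ T, q₁ ≤ wt w (cl G t ∩ F i)) = I :=
          Finset.filter_true_of_mem hcon
        rw [h3] at h1
        have h4 : T.length * N' ≤ ns * N' := Nat.mul_le_mul_right _ hT
        omega
      obtain ⟨i, hi, hiT⟩ := h2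
      push Not at hiT
      have h3 := wt_inter_exists_le hH.nonneg G (F i) q₁ T (fun t ht => (hiT t ht).le)
      have h4 : (T.length : ℝ) * q₁ ≤ ns * q₁ :=
        mul_le_mul_of_nonneg_right (by exact_mod_cast hT) (by linarith)
      have h5 := wt_inter_add_diff w (F i) {v | ∃ t ∈ T, v ∈ cl G t}
      have h6 := hrob i hi A' hA'.arena hA'.sub
      have h7 := hA'.cost
      set S₁ : Set V := F i \ {v | ∃ t ∈ T, v ∈ cl G t} with hS₁
      have h8 := wt_inter_add_diff w S₁ (bd G A')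
      have h9 : wt w (S₁ \ bd G A') ≤ wt w (F i \ bd G A') :=
        wt_mono hH.nonneg (Set.sdiff_subset_sdiff_left Set.sdiff_subset)
      have h10 := hR i hi
      obtain ⟨x, hx⟩ := exists_mem_of_wt_pos (w := w) (S := S₁ ∩ bd G A') (by linarith)
      refine ⟨x, hx.2, (hlet i hi x hx.1.1).1, (hlet i hi x hx.1.1).2, ?_⟩
      intro t ht hxt
      exact hx.1.2 ⟨t, ht, hxt⟩
  have hNq0 : (0 : ℝ) ≤ Nq := by positivity
  rcases hS V G w K β P A Q' hH hA (by linarith) hP hanti hQ's hSup' with hG | hE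
  · exact Or.inl hG
  obtain ⟨C, A₁, hC, hCA, hQC, hbel, hdC⟩ := hE
  rcases hQC with hQC | hQC
  · exact Or.inr ⟨C, A₁, hC, hCA, hQC, hbel.mono hbsle, hdC⟩
  set I₁ := I.filter (fun i => q₁ ≤ wt w (cl G C ∩ F i)) with hI₁
  have hI₁I : I₁ ⊆ I := Finset.filter_subset _ _
  obtain ⟨k', I', F', J, y, Y, hk', hI', hcard, hY, hF', hJ, hYn, hcf⟩ :=
    hr V G w hH.toWts C I₁ (fun i => cl G C ∩ F i) out hC hQC
      (fun i hi i' hi' hii' => (hdisj i (hI₁I hi) i' (hI₁I hi') hii').mono
        Set.inter_subset_right Set.inter_subset_right)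
      (fun i hi x hx => ⟨fun hxC => (hlet i (hI₁I hi) x hx.2).1 (hCA hxC), hx.1⟩)
      (fun i hi => (Finset.mem_filter.mp hi).2)
      (fun i hi i' hi' hii' x hx => (wt_mono hH.nonneg (Set.inter_subset_inter_right _
        Set.inter_subset_right)).trans (hconf i (hI₁I hi) i' (hI₁I hi') hii' x hx.2))
  have hkk' : k ≤ k' := by
    rcases hk' with h | h
    · exact h.ge
    · rw [h]; exact hk₂
  have hk1' : 1 ≤ k' + bs + Nq := by linarith
  have hI'I : I' ⊆ I := hI'.trans hI₁I
  have hF'F : ∀ i ∈ I', F' i ⊆ F i := fun i hi => (hF' i hi).1.trans Set.inter_subset_right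
  obtain ⟨A₂, hbel₂, hdY, -⟩ := hH.cut_below hbel.arena (cl G (Y : Set V)) (b := Nq)
    ((wt_mono hH.nonneg Set.inter_subset_left).trans ((wt_cl_finset_le hH.toWts Y).trans
      (by exact_mod_cast hY))) (by have := hbel.bd_le hH; linarith)
  have hbelt : Below G w K β A A₂ (bs + Nq) := hbel.trans hH hbel₂
  have hpr : CProm G par L q A₂ I' F' (fun x => out x ∪ cl G (J x)) := by
    refine cprom_step hpar hq hCA hbelt.sub (hdC.mono_left hbel₂.sub) J y hI'I hF'F
      (fun i hi x hx => (hlet i hi x hx).1) hdisj hadj ?_ ?_ ?_ ?_ hprom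
    · intro i hi x hx
      obtain ⟨h1, h2, h3, h4, -, -⟩ := hJ i hi x hx
      exact ⟨h1, h2, h3, h4⟩
    · intro i hi x hx
      obtain ⟨-, -, -, -, -, c, hc, hcI, hyc⟩ := hJ i hi x hx
      exact ⟨c, hI₁I hc, hcI, hyc.2⟩
    · intro i hi x hx i' hi' z hz
      obtain ⟨-, -, -, -, hyY, -⟩ := hJ i hi x hx
      exact hYn (y x) hyY i' hi' z hz
    · intro i hi x hx
      obtain ⟨-, -, -, -, hyY, -⟩ := hJ i hi x hx
      refine hdY.mono_right ?_
      rintro v (hv | ⟨s, hs, hsv⟩)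
      · rw [Set.mem_singleton_iff] at hv
        exact Or.inl (by rw [hv]; exact hyY)
      · rw [Set.mem_singleton_iff] at hs
        exact Or.inr ⟨s, by rw [hs]; exact hyY, hsv⟩
  have hb₂ := hbelt.bd_le hH
  have key := (hRf (k' + bs + Nq) hk1').2 V G w K β P A₂ Q I' F'
    (fun x => out x ∪ cl G (J x)) hH hbelt.arena (by linarith) hP
    (fun i hi => (hanti i hi).mono subset_rfl hbelt.sub) hQ ?_ hcard.ge ?_ ?_ ?_ ?_ ?_ ?_ hpr
  · rcases key with hG | hE
    · exact Or.inl hG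
    · exact Or.inr (hE.up hH hbelt (by linarith))
  · intro T hT hTQ A'' hA'' p hp
    obtain ⟨x, hx, hxA, hxL, hxT⟩ := hSup T (hT.trans (le_max_right _ _)) hTQ A''
      ((hbelt.trans hH hA'').mono (by linarith)) p hp
    exact ⟨x, hx, fun h => hxA (hbelt.sub h), hxL, hxT⟩
  · intro i hi
    have := (hF' i hi).2
    simp only [ρ, hk1', dif_pos] at this
    exact this
  · intro i hi x hx
    have := hlet i (hI'I hi) x (hF'F i hi hx)
    exact ⟨fun h => this.1 (hbelt.sub h), this.2⟩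
  · intro i hi i' hi' hii'
    exact (hdisj i (hI'I hi) i' (hI'I hi') hii').mono (hF'F i hi) (hF'F i' hi')
  · intro i hi i' hi' hii' x hx z hz hxz
    exact Or.inl (hadj i (hI'I hi) i' (hI'I hi') hii' x (hF'F i hi hx) z (hF'F i' hi' hz) hxz)
  · intro i hi i' hi' hii' x hx
    exact (hcf i hi i' hi' hii' x hx).trans (by linarith)
  · intro i hi A'' hA'' hsub
    have h1 := hrob i (hI'I hi) A'' hA'' (hsub.trans hbelt.sub)
    have h2 : wt w (F' i \ bd G A'') ≤ wt w (F i \ bd G A'') :=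
      wt_mono hH.nonneg (Set.sdiff_subset_sdiff_left (hF'F i hi))
    have h3 := cost_trans hH (A := A) hsub
    have h4 := hbelt.cost
    linarith

end Pool.Agent.H83FC
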