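import Pool.Agent.H83FC.Loop
import Pool.Agent.H83FC.SubStep

/-!
A weighted haven of large order gives the cone over every tree as an induced minor.
-/

namespace Pool.Agent.H83FC

open SimpleGraph Pool.Agent.H70IM Pool.Agent.H7FA

universe u

theorem cloop_all (par : ℕ → ℕ) (hpar : ∀ j, 1 ≤ j → par j < j) (L j : ℕ)
    (hS : CSubClaim.{u} par L (j + 1)) : ∀ q, 1 ≤ q → CLoopClaim.{u} par L j q := by
  intro q hq
  induction q, hq using Nat.le_induction with
  | base => exact cloop_one par L j
  | succ q hq ih => exact cloop_succ par hpar L j q hq hS ih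

theorem csub_all (par : ℕ → ℕ) (hpar : ∀ j, 1 ≤ j → par j < j) (L : ℕ) (hL : 1 ≤ L) :
    ∀ d j, 1 ≤ j → j + d = L → CSubClaim.{u} par L j := by
  intro d
  induction d with
  | zero =>
    intro j _ hj
    have : j = L := by omega
    subst this
    exact csub_top par j
  | succ d ih =>
    intro j hj1 hj
    exact csub_of_loop par hpar L j hj1
      (cloop_all par hpar L j (ih (j + 1) (by omega) (by omega)) L hL)

/-- A weighted haven of large order gives the cone over the tree. -/
theorem cgoal_of_whaven (par : ℕ → ℕ) (hpar : ∀ j, 1 ≤ j → par j < j) (L : ℕ) (hL : 1 ≤ L) :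
    ∃ K : ℝ, 0 ≤ K ∧ ∀ (V : Type u) [Fintype V] (G : SimpleGraph V) (w : V → ℝ)
      (β : Set V → Set V), WHaven G w K β → CGoal G par L := by
  have h1 : CSubClaim.{u} par L 1 := csub_all par hpar L hL (L - 1) 1 le_rfl (by omega)
  exact cgoal_of_loop_zero par L (cloop_all par hpar L 0 (by simpa using h1) L hL)

end Pool.Agent.H83FC
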